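import Pool.Agent.K3h22.EX.Stm2

/-! EX project: bounds for the roots of a polynomial whose coefficients are exponential
polynomials. -/

set_option autoImplicit false

namespace Pool.Agent.K3h43.EX

open MvPolynomial Filter Topology Metric Set Pool.Agent.K3h22.EX

theorem root_bound (n : ℕ) (a : ℕ → ℂ) (A B : ℝ) (hB : 0 < B)
    (ha : ∀ k ∈ Finset.range (n + 1), ‖a k‖ ≤ A) (h0 : B ≤ ‖a 0‖) (hn : B ≤ ‖a n‖) (t : ℂ)
    (ht : ∑ k ∈ Finset.range (n + 1), a k * t ^ k = 0) :
    t ≠ 0 ∧ |Real.log ‖t‖| ≤ Real.log ((n + 1) * A / B) := by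
  have hA0 : ‖a 0‖ ≤ A := ha 0 (by simp)
  have hA : 0 < A := lt_of_lt_of_le hB (h0.trans hA0)
  have ht0 : t ≠ 0 := by
    rintro rfl
    rw [Finset.sum_range_succ'] at ht
    simp at ht
    rw [ht] at h0
    simp at h0
    linarith
  have htp : 0 < ‖t‖ := norm_pos_iff.mpr ht0
  have hS : A ≤ (n + 1) * A := by nlinarith [Nat.cast_nonneg (α := ℝ) n]
  have hSp : 0 < (n + 1) * A := lt_of_lt_of_le hA hS
  have hBS : B ≤ (n + 1) * A := h0.trans (hA0.trans hS)
  have h1 : ‖t‖ ≤ (n + 1) * A / B := by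
    rw [le_div_iff₀ hB]
    rcases le_or_gt ‖t‖ 1 with h | h
    · nlinarith
    · rcases n with _ | m
      · exfalso
        simp at ht
        rw [ht] at h0
        simp at h0
        linarith
      · rw [Finset.sum_range_succ] at ht
        have h2 : ‖a (m + 1)‖ * ‖t‖ ^ (m + 1) ≤ ((m : ℝ) + 1) * A * ‖t‖ ^ m := by
          have h3 : a (m + 1) * t ^ (m + 1) = -∑ k ∈ Finset.range (m + 1), a k * t ^ k := by
            linear_combination ht
          calc ‖a (m + 1)‖ * ‖t‖ ^ (m + 1) = ‖a (m + 1) * t ^ (m + 1)‖ := by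
                rw [norm_mul, norm_pow]
            _ = ‖∑ k ∈ Finset.range (m + 1), a k * t ^ k‖ := by rw [h3, norm_neg]
            _ ≤ ∑ k ∈ Finset.range (m + 1), ‖a k * t ^ k‖ := norm_sum_le _ _
            _ ≤ ∑ k ∈ Finset.range (m + 1), A * ‖t‖ ^ m := by
                apply Finset.sum_le_sum
                intro k hk
                rw [norm_mul, norm_pow]
                have hk' := Finset.mem_range.mp hk
                apply mul_le_mul (ha k (Finset.mem_range.mpr (by omega)))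
                  (pow_le_pow_right₀ h.le (by omega)) (by positivity) hA.le
            _ = ((m : ℝ) + 1) * A * ‖t‖ ^ m := by
                rw [Finset.sum_const, Finset.card_range, nsmul_eq_mul]
                push_cast
                ring
        have h4 : B * ‖t‖ ^ (m + 1) ≤ ((m : ℝ) + 1) * A * ‖t‖ ^ m :=
          (mul_le_mul_of_nonneg_right hn (by positivity)).trans h2
        have h5 : 0 < ‖t‖ ^ m := by positivity
        have h6 : (‖t‖ * B) * ‖t‖ ^ m ≤ (((m : ℝ) + 1) * A) * ‖t‖ ^ m := by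
          calc (‖t‖ * B) * ‖t‖ ^ m = B * ‖t‖ ^ (m + 1) := by ring
            _ ≤ _ := h4
        have h7 := le_of_mul_le_mul_right h6 h5
        push_cast
        nlinarith
  have h2 : B / ((n + 1) * A) ≤ ‖t‖ := by
    rw [div_le_iff₀ hSp]
    rcases le_or_gt 1 ‖t‖ with h | h
    · nlinarith
    · rw [Finset.sum_range_succ'] at ht
      have h3 : a 0 = -∑ k ∈ Finset.range n, a (k + 1) * t ^ (k + 1) := by
        simp only [pow_zero, mul_one] at ht
        linear_combination ht
      have h4 : ‖a 0‖ ≤ (n : ℝ) * (A * ‖t‖) := by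
        calc ‖a 0‖ = ‖∑ k ∈ Finset.range n, a (k + 1) * t ^ (k + 1)‖ := by rw [h3, norm_neg]
          _ ≤ ∑ k ∈ Finset.range n, ‖a (k + 1) * t ^ (k + 1)‖ := norm_sum_le _ _
          _ ≤ ∑ k ∈ Finset.range n, A * ‖t‖ := by
              apply Finset.sum_le_sum
              intro k hk
              rw [norm_mul, norm_pow]
              have hk' := Finset.mem_range.mp hk
              apply mul_le_mul (ha (k + 1) (Finset.mem_range.mpr (by omega))) _ (by positivity) hA.le
              calc ‖t‖ ^ (k + 1) ≤ ‖t‖ ^ 1 :=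
                    pow_le_pow_of_le_one htp.le h.le (by omega)
                _ = ‖t‖ := pow_one _
          _ = (n : ℝ) * (A * ‖t‖) := by
              rw [Finset.sum_const, Finset.card_range, nsmul_eq_mul]
      nlinarith [mul_pos hA htp]
  refine ⟨ht0, ?_⟩
  rw [abs_le]
  constructor
  · rw [← Real.log_inv, inv_div]
    exact Real.log_le_log (by positivity) h2
  · exact Real.log_le_log htp h1

theorem t_ROWB : S_UPP → S_ROWB := by
  intro hU s β _ p c δ hδ g ζ ε R₀ C hlow
  choose D hD0 hD using fun k : ℕ => hU s β p c (g.coeff k) δ (fun _ _ b _ => hδ b) (‖ζ‖ + ε)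
  set n := g.natDegree with hn
  set C1 : ℝ := ∑ k ∈ Finset.range (n + 1), D k with hC1
  have hC10 : 0 ≤ C1 := Finset.sum_nonneg fun k _ => hD0 k
  refine ⟨max R₀ 1, Real.log (n + 1) + C1 + |C|, le_max_right _ _, ?_, ?_⟩
  · have : 0 ≤ Real.log ((n : ℝ) + 1) := Real.log_nonneg (by
      have := Nat.cast_nonneg (α := ℝ) n
      linarith)
    positivity
  intro R hR v hv t ht
  have hR0 : R₀ ≤ R := (le_max_left _ _).trans hR
  have hR1 : 1 ≤ R := (le_max_right _ _).trans hR
  obtain ⟨hl0, hln⟩ := hlow R hR0 v hv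
  set E : ℝ := R ^ δ + Real.log R with hE
  have hE1 : 1 ≤ E := by
    have h1 : 1 ≤ R ^ δ := one_le_pow₀ hR1
    have h2 : 0 ≤ Real.log R := Real.log_nonneg hR1
    linarith
  have hv' : ‖v‖ ≤ ‖ζ‖ + ε := by
    rw [mem_ball, dist_eq_norm] at hv
    calc ‖v‖ = ‖ζ + (v - ζ)‖ := by congr 1; abel
      _ ≤ ‖ζ‖ + ‖v - ζ‖ := norm_add_le _ _
      _ ≤ ‖ζ‖ + ε := by linarith
  have hup : ∀ k ∈ Finset.range (n + 1), ‖val p c (sc R v) (g.coeff k)‖ ≤ Real.exp (C1 * E) := by
    intro k hk
    refine (hD k R hR1 v hv').trans (Real.exp_le_exp.mpr ?_)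
    have : D k ≤ C1 := Finset.single_le_sum (f := D) (fun i _ => hD0 i) hk
    exact mul_le_mul_of_nonneg_right this (by linarith)
  rw [Polynomial.eval_map, Polynomial.eval₂_eq_sum_range, ← hn] at ht
  have hmain := root_bound n (fun k => val p c (sc R v) (g.coeff k)) (Real.exp (C1 * E))
    (Real.exp (-(C * E))) (Real.exp_pos _) hup hl0 hln t ht
  refine ⟨hmain.1, hmain.2.trans ?_⟩
  have hn1 : (0 : ℝ) < n + 1 := by positivity
  rw [Real.log_div (by positivity) (Real.exp_pos _).ne', Real.log_mul hn1.ne' (Real.exp_pos _).ne',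
    Real.log_exp, Real.log_exp]
  have hlog : 0 ≤ Real.log ((n : ℝ) + 1) := Real.log_nonneg (by
      have := Nat.cast_nonneg (α := ℝ) n
      linarith)
  have h3 : C * E ≤ |C| * E := mul_le_mul_of_nonneg_right (le_abs_self C) (by linarith)
  nlinarith

end Pool.Agent.K3h43.EX
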