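import Pool.Agent.K3h22.EX.Stm2

/-! EX project: regular matrix pencils of size `s` have at most `s` eigenvalues. -/

set_option autoImplicit false

namespace Pool.Agent.K3h43.EX

open MvPolynomial Filter Topology Metric Set Pool.Agent.K3h22.EX

/-- `exp(-2πik/g)`, `k < g`, are different -/
theorem u_inj (g : ℕ) (hg : 0 < g) :
    Function.Injective fun k : Fin g =>
      Complex.exp (-(2 * Real.pi * (k : ℕ) / g * Complex.I)) := by
  intro k l h
  simp only at h
  rw [Complex.exp_eq_exp_iff_exists_int] at h
  obtain ⟨n, hn⟩ := h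
  have hg' : (g : ℂ) ≠ 0 := by exact_mod_cast hg.ne'
  have hpi : (Real.pi : ℂ) ≠ 0 := by exact_mod_cast Real.pi_ne_zero
  have h1 : ((l : ℕ) : ℂ) - ((k : ℕ) : ℂ) = (n : ℂ) * g := by
    have hI : Complex.I ≠ 0 := Complex.I_ne_zero
    field_simp at hn
    linear_combination hn
  have h2 : ((l : ℕ) : ℤ) - ((k : ℕ) : ℤ) = n * g := by exact_mod_cast h1
  have hk := k.2
  have hl := l.2
  have hn0 : n = 0 := by
    by_contra hne
    rcases lt_or_gt_of_ne hne with h3 | h3
    · have : n * (g : ℤ) ≤ -g := by nlinarith
      omega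
    · have : (g : ℤ) ≤ n * g := by nlinarith
      omega
  rw [hn0] at h2
  ext
  omega

theorem t_PENCIL : S_PENCIL := by
  intro s g A hA hsg m hm
  by_contra hcon
  push Not at hcon
  set B : Matrix (Fin s) (Fin s) ℂ := A.map (starRingEnd ℂ) with hB
  have hg : 0 < g := by omega
  -- the polynomial
  set P : Polynomial ℂ := ((Polynomial.X : Polynomial ℂ) • B.map Polynomial.C + A.map Polynomial.C).det
    with hP
  have hdeg : P.natDegree ≤ s := by
    have := Polynomial.natDegree_det_X_add_C_le B A
    simpa using this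
  have hev : ∀ u : ℂ, P.eval u = (u • B + A).det := by
    intro u
    rw [hP, ← Polynomial.coe_evalRingHom, RingHom.map_det]
    congr 1
    ext i j
    simp
    ring
  have hP0 : P ≠ 0 := by
    intro h0
    have := hev 0
    rw [h0, Polynomial.eval_zero, zero_smul, zero_add] at this
    exact hA this.symm
  have hroot : ∀ k : Fin g, P.IsRoot (Complex.exp (-(2 * Real.pi * (k : ℕ) / g * Complex.I))) := by
    intro k
    rw [Polynomial.IsRoot, hev]
    rw [← Matrix.exists_vecMul_eq_zero_iff]
    refine ⟨fun i => (m k i : ℂ), ?_, ?_⟩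
    · intro h0
      apply hm k
      ext i
      have := congrFun h0 i
      simpa using this
    · ext j
      have h1 := hcon k j
      set lam : ℂ := Complex.exp (Real.pi * (k : ℕ) / g * Complex.I) with hlam
      have hlam0 : lam ≠ 0 := Complex.exp_ne_zero _
      have hconj : (starRingEnd ℂ) lam = Complex.exp (-(Real.pi * (k : ℕ) / g * Complex.I)) := by
        rw [hlam, ← Complex.exp_conj]
        congr 1
        simp
      have hu : Complex.exp (-(2 * Real.pi * (k : ℕ) / g * Complex.I)) = (starRingEnd ℂ) lam / lam := by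
        rw [hconj, hlam, ← Complex.exp_sub]
        congr 1
        ring
      have h2 : lam * ∑ i, (m k i : ℂ) * A i j + (starRingEnd ℂ) (lam * ∑ i, (m k i : ℂ) * A i j) = 0 := by
        rw [Complex.add_conj, h1]
        simp
      have h3 : (starRingEnd ℂ) (lam * ∑ i, (m k i : ℂ) * A i j) =
          (starRingEnd ℂ) lam * ∑ i, (m k i : ℂ) * (starRingEnd ℂ) (A i j) := by
        rw [map_mul, map_sum]
        simp
      rw [h3] at h2
      simp only [Matrix.vecMul, dotProduct, Matrix.add_apply, Matrix.smul_apply, Pi.zero_apply,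
        smul_eq_mul, hu, hB, Matrix.map_apply]
      have h4 : (∑ x, (m k x : ℂ) * ((starRingEnd ℂ) lam / lam * (starRingEnd ℂ) (A x j) + A x j)) =
          ((starRingEnd ℂ) lam * (∑ i, (m k i : ℂ) * (starRingEnd ℂ) (A i j)) +
            lam * ∑ i, (m k i : ℂ) * A i j) / lam := by
        rw [eq_div_iff hlam0, Finset.sum_mul, Finset.mul_sum, Finset.mul_sum, ← Finset.sum_add_distrib]
        apply Finset.sum_congr rfl
        intro i _
        field_simp
      rw [h4, add_comm, h2]
      simp
  have hcard : g ≤ P.natDegree := by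
    have h1 : (Finset.univ.image fun k : Fin g =>
        Complex.exp (-(2 * Real.pi * (k : ℕ) / g * Complex.I))).card = g := by
      rw [Finset.card_image_of_injective _ (u_inj g hg)]
      simp
    have h2 : (Finset.univ.image fun k : Fin g =>
        Complex.exp (-(2 * Real.pi * (k : ℕ) / g * Complex.I))) ⊆ P.roots.toFinset := by
      intro x hx
      rw [Finset.mem_image] at hx
      obtain ⟨k, -, rfl⟩ := hx
      rw [Multiset.mem_toFinset, Polynomial.mem_roots hP0]
      exact hroot k
    calc g = _ := h1.symm
      _ ≤ P.roots.toFinset.card := Finset.card_le_card h2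
      _ ≤ P.roots.card := Multiset.toFinset_card_le _
      _ ≤ P.natDegree := Polynomial.card_roots' P
  omega

end Pool.Agent.K3h43.EX
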